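import Pool.Agent.K1H73.LS.Fm
import Pool.Agent.K1H73.LS.PatC
import Pool.Agent.K1H73.LS.Blk
import Pool.Agent.R518.B.FS4

/-!
# The exact positions of the represented almost prime quadruples in short blocks

Let `p = q m + a + 2` with `30 ∣ q`. An integer `m` is good if none of `p - 2`, `p`, `p + 4`, `p + 10` has a prime
factor `≤ s = n ^ (1 / r)`; if `4 ∤ n` and `p` lies between `√(29 n)` and `√(30 n)` then `p` is a value of
`x + 2 y + 5 z` at a representation of `n` as a sum of four squares for every good `m`. Uniformly in all `q, a ≤ n`, in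
all intervals of length at least `n ^ θ`: the number of the `m` for which the good integers in `[m, m + T]` are EXACTLY
`m + h`, `h ∈ J`, for every `J` of bounded size with `0 ∈ J` and all `T` up to a constant times the mean distance.

The exact block law for systems of polynomials is the theorem `blocks'` of `Pool.Agent.R463.PS` of the starting files;
the representation of `n` is the one of `Pool.Agent.H141R2.FS`. New here: the version for finite sets of linear forms
(`K1H73.LS.Blk`), its conditions and densities uniformly in the moduli `q ≤ n`, and the application.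
-/

set_option autoImplicit false

namespace Pool.Agent.Results.MP_40574a_nt.ExactBlocks

open Finset Filter
open Pool.Agent.K1H73

/-- `p` is the value of `x + 2 y + 5 z` at a representation of `n` as a sum of four squares of natural numbers -/
def Val (n p : ℕ) : Prop := ∃ x y z w : ℕ, n = x ^ 2 + y ^ 2 + z ^ 2 + w ^ 2 ∧ p = x + 2 * y + 5 * z

/-- none of the four numbers `q m + a + h`, `h = 0, 2, 6, 12`, has a prime factor `≤ s`; these are the numbers
`p - 2`, `p`, `p + 4`, `p + 10` for `p = q m + a + 2` -/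
def Good (q a s m : ℕ) : Prop :=
  ∀ l : ℕ, l.Prime → l ≤ s → ∀ h ∈ ({0, 2, 6, 12} : Finset ℕ), ¬ l ∣ q * m + a + h

/-- the density of the good integers: the product over the primes `l ≤ s` which do not divide `q` (`30 ∣ q`) -/
noncomputable def V (q s : ℕ) : ℝ :=
  ∏ l ∈ (Finset.range (s + 1)).filter Nat.Prime, (1 - ((if l ∣ q then 0 else 4 : ℕ) : ℝ) / l)

open Classical in
/-- the number of the classes `m` modulo `l` such that `l` divides one of the four numbers for `m + j`, for some
`j ∈ J` -/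
noncomputable def rhoJ (q a : ℕ) (J : Finset ℕ) (l : ℕ) : ℕ :=
  ((Finset.range l).filter (fun m : ℕ => ∃ j ∈ J, ∃ h ∈ ({0, 2, 6, 12} : Finset ℕ), l ∣ q * (m + j) + a + h)).card

/-- the density of the pattern `J` -/
noncomputable def VJ (q a : ℕ) (J : Finset ℕ) (s : ℕ) : ℝ :=
  ∏ l ∈ (Finset.range (s + 1)).filter Nat.Prime, (1 - (rhoJ q a J l : ℝ) / l)

open Classical in
/-- the number of the `m` in `(u, u + Y]` for which the good integers in `[m, m + T]` are exactly the `m + h`,
`h ∈ J` -/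
noncomputable def Blocks (q a s : ℕ) (J : Finset ℕ) (T u Y : ℕ) : ℕ :=
  ((Ioc u (u + Y)).filter (fun m => ∀ h ≤ T, Good q a s (m + h) ↔ h ∈ J)).card

/-- the shifts as integers -/
def Hq : Finset ℤ := {0, -2, -6, -12}

lemma mem_Hq (P : ℤ → Prop) : (∀ h ∈ Hq, P h) ↔ ∀ h ∈ ({0, 2, 6, 12} : Finset ℕ), P (-(h : ℤ)) := by
  unfold Hq
  constructor
  · intro h0 h hh
    simp only [mem_insert, mem_singleton] at hh
    rcases hh with rfl | rfl | rfl | rfl
    · simpa using h0 0 (by simp)
    · simpa using h0 (-2) (by simp)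
    · simpa using h0 (-6) (by simp)
    · simpa using h0 (-12) (by simp)
  · intro h0 h hh
    simp only [mem_insert, mem_singleton] at hh
    rcases hh with rfl | rfl | rfl | rfl
    · simpa using h0 0 (by simp)
    · simpa using h0 2 (by simp)
    · simpa using h0 6 (by simp)
    · simpa using h0 12 (by simp)

lemma good_eq (q a s : ℕ) : Good q a s = Pool.Agent.R490.LZ.Ro (LS.fm q a Hq) s := by
  funext m
  apply propext
  rw [LS.fm_ro]
  unfold Good
  constructor
  · intro h l hl hls
    rw [mem_Hq (fun h => ¬ (l : ℤ) ∣ ((a + q * m : ℕ) : ℤ) - h)]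
    intro h' hh' hd
    apply h l hl hls h' hh'
    have e : ((a + q * m : ℕ) : ℤ) - -(h' : ℤ) = ((q * m + a + h' : ℕ) : ℤ) := by
      push_cast
      ring
    rw [e] at hd
    exact_mod_cast hd
  · intro h l hl hls h' hh' hd
    have h1 := (mem_Hq (fun h => ¬ (l : ℤ) ∣ ((a + q * m : ℕ) : ℤ) - h)).1 (h l hl hls) h' hh'
    apply h1
    have e : ((a + q * m : ℕ) : ℤ) - -(h' : ℤ) = ((q * m + a + h' : ℕ) : ℤ) := by
      push_cast
      ring
    rw [e]
    exact_mod_cast hd

lemma nu_big {l : ℕ} (hl : l.Prime) (h30 : ¬ l ∣ 30) : RDW.nu Hq l = 4 := by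
  unfold RDW.nu Hq
  by_cases h13 : 13 ≤ l
  · rw [Finset.card_image_of_injOn]
    · decide
    · intro x hx y hy hxy
      have hxy' : x % (l : ℤ) = y % (l : ℤ) := hxy
      have hd : (l : ℤ) ∣ x - y := Int.ModEq.dvd (show y ≡ x [ZMOD l] from hxy'.symm)
      simp only [Finset.coe_insert, Finset.coe_singleton, Set.mem_insert_iff, Set.mem_singleton_iff] at hx hy
      obtain ⟨t, ht⟩ := hd
      have hlZ : (13 : ℤ) ≤ l := by exact_mod_cast h13
      have ht0 : t = 0 := by
        by_contra hne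
        have : |x - y| ≥ 13 := by
          rw [ht, abs_mul, abs_of_pos (by linarith : (0 : ℤ) < l)]
          have h1 : 1 ≤ |t| := Int.one_le_abs hne
          nlinarith
        rcases hx with rfl | rfl | rfl | rfl <;> rcases hy with rfl | rfl | rfl | rfl <;> norm_num at this
      rw [ht0, mul_zero] at ht
      linarith
  · have h13' : l < 13 := by omega
    have := hl.two_le
    interval_cases l
    · exact absurd (by norm_num) h30
    · exact absurd (by norm_num) h30
    · exact absurd hl (by norm_num)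
    · exact absurd (by norm_num) h30
    · exact absurd hl (by norm_num)
    · decide
    · exact absurd hl (by norm_num)
    · exact absurd hl (by norm_num)
    · exact absurd hl (by norm_num)
    · decide
    · exact absurd hl (by norm_num)

lemma co_of {q a : ℕ} (hco : ∀ h ∈ ({0, 2, 6, 12} : Finset ℕ), Nat.Coprime q (a + h)) (p : ℕ) (hp : p.Prime)
    (hpq : p ∣ q) : ∀ h ∈ Hq, ¬ (p : ℤ) ∣ (a : ℤ) - h := by
  rw [mem_Hq (fun h => ¬ (p : ℤ) ∣ (a : ℤ) - h)]
  intro h hh hd
  have e : (a : ℤ) - -(h : ℤ) = ((a + h : ℕ) : ℤ) := by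
    push_cast
    ring
  rw [e] at hd
  have h1 : p ∣ a + h := by exact_mod_cast hd
  have h2 := Nat.dvd_gcd hpq h1
  rw [hco h hh] at h2
  exact hp.one_lt.ne' (Nat.dvd_one.1 h2)

/-- few prime factors -/
theorem few {n z r : ℕ} (hr : 1 ≤ r) (hz : z = ⌊(n : ℝ) ^ (1 / (r : ℝ))⌋₊) (hz1 : 1 ≤ z) {x : ℕ}
    (hx0 : x ≠ 0) (hx : x ≤ n) (h : ∀ l : ℕ, l.Prime → l ≤ z → ¬ l ∣ x) : x.primeFactorsList.length ≤ r := by
  by_contra hcon
  rw [not_le] at hcon
  have h1 : ∀ l ∈ x.primeFactorsList, z + 1 ≤ l := by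
    intro l hl
    by_contra h2
    exact h l (Nat.prime_of_mem_primeFactorsList hl) (by omega) (Nat.dvd_of_mem_primeFactorsList hl)
  have h2 : (z + 1) ^ x.primeFactorsList.length ≤ x := by
    have h3 : (z + 1) ^ x.primeFactorsList.length ≤ x.primeFactorsList.prod :=
      List.pow_card_le_prod _ _ h1
    rwa [Nat.prod_primeFactorsList hx0] at h3
  have h4 : (z + 1) ^ r ≤ (z + 1) ^ x.primeFactorsList.length := Nat.pow_le_pow_right (by omega) (by omega)
  have h5 : (n : ℝ) < ((z + 1 : ℕ) : ℝ) ^ r := by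
    have h6 : (n : ℝ) ^ (1 / (r : ℝ)) < ((z + 1 : ℕ) : ℝ) := by
      rw [hz]
      push_cast
      exact Nat.lt_floor_add_one _
    have h7 : ((n : ℝ) ^ (1 / (r : ℝ))) ^ r < ((z + 1 : ℕ) : ℝ) ^ r :=
      pow_lt_pow_left₀ h6 (by positivity) (by omega)
    rwa [← Real.rpow_natCast, ← Real.rpow_mul (Nat.cast_nonneg n), one_div,
      inv_mul_cancel₀ (by positivity), Real.rpow_one] at h7
  have h6 : n < (z + 1) ^ r := by exact_mod_cast h5
  omega

lemma fm_iff (q a p m : ℕ) : (∃ f ∈ LS.fm q a Hq, (p : ℤ) ∣ f.1 * (m : ℤ) + f.2) ↔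
    ∃ h ∈ ({0, 2, 6, 12} : Finset ℕ), p ∣ q * m + a + h := by
  have e : ∀ h : ℕ, (q : ℤ) * (m : ℤ) + ((a : ℤ) - -(h : ℤ)) = ((q * m + a + h : ℕ) : ℤ) := by
    intro h
    push_cast
    ring
  have h1 := mem_Hq (fun h => ¬ (p : ℤ) ∣ (q : ℤ) * (m : ℤ) + ((a : ℤ) - h))
  have h2 : (∀ f ∈ LS.fm q a Hq, ¬ (p : ℤ) ∣ f.1 * (m : ℤ) + f.2) ↔
      ∀ h ∈ Hq, ¬ (p : ℤ) ∣ (q : ℤ) * (m : ℤ) + ((a : ℤ) - h) := by
    unfold LS.fm
    exact Finset.forall_mem_image
  have h3 := h2.trans h1
  rw [← not_iff_not]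
  push Not
  refine h3.trans ?_
  constructor
  · intro h0 h hh hd
    apply h0 h hh
    rw [e]
    exact_mod_cast hd
  · intro h0 h hh hd
    apply h0 h hh
    rw [e] at hd
    exact_mod_cast hd

open Classical in
lemma V_eq {q a : ℕ} (h30 : 30 ∣ q) (hco : ∀ h ∈ ({0, 2, 6, 12} : Finset ℕ), Nat.Coprime q (a + h)) (s : ℕ) :
    Pool.Agent.R490.LZ.De (LS.fm q a Hq) s = V q s := by
  unfold Pool.Agent.R490.LZ.De V
  apply Finset.prod_congr rfl
  intro l hl
  have hlp := (mem_filter.1 hl).2
  have h1 := LS.fm_nu (q := q) (a := a) (H := Hq) hlp (co_of hco l hlp)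
  have h2 : (if l ∣ q then 0 else RDW.nu Hq l) = if l ∣ q then 0 else 4 := by
    split_ifs with h
    · rfl
    · exact nu_big hlp (fun h' => h (h'.trans h30))
  rw [h2] at h1
  rw [← h1]

open Classical in
lemma VJ_eq (q a : ℕ) (J : Finset ℕ) (s : ℕ) : LS.DeJ (LS.fm q a Hq) J s = VJ q a J s := by
  unfold LS.DeJ VJ
  apply Finset.prod_congr rfl
  intro l _
  have : LS.nuJ (LS.fm q a Hq) J l = rhoJ q a J l := by
    unfold LS.nuJ rhoJ
    congr 1
    apply Finset.filter_congr
    intro m _
    apply exists_congr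
    intro h
    apply and_congr_right
    intro _
    exact fm_iff q a l (m + h)
  rw [this]

/-- **The exact positions of the represented almost prime quadruples in short blocks.** Let `K`, `x₀` and
`θ, ε > 0`. There is `r0` such that for all `r ≥ r0` and all large `n`, `4 ∤ n`, `s = n ^ (1 / r)` (integer part), for
ALL moduli `q ≤ n` with `30 ∣ q` and all `a ≤ n` such that `q` is prime to `a`, `a + 2`, `a + 6`, `a + 12`: (1) if
`p = q m + a + 2` lies between `√(29 n)` and `√(30 n)` and `m` is good then `p` is a value of `x + 2 y + 5 z` at a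
representation `n = x ^ 2 + y ^ 2 + z ^ 2 + w ^ 2` and the four numbers have at most `r` prime factors, and `m` is good
if the four numbers are primes larger than `s`; (2) for all intervals `(u, u + Y]` with `Y ≥ n ^ θ`, all sets `J` of at
most `K` natural numbers with `0 ∈ J` and all `T ≥ max J` with `T V ≤ x₀`: the number of the `m` in the interval for
which the good integers in `[m, m + T]` are exactly the `m + h`, `h ∈ J`, is `Y VJ exp (- T V)`, up to the factor
`1 ± ε`. -/
theorem result (K : ℕ) (θ x0 ε : ℝ) (hθ : 0 < θ) (hε : 0 < ε) :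
    ∃ r0 : ℕ, 1 ≤ r0 ∧ ∀ r : ℕ, r0 ≤ r → ∀ᶠ n : ℕ in atTop, ¬ 4 ∣ n → ∀ s : ℕ, s = ⌊(n : ℝ) ^ (1 / (r : ℝ))⌋₊ →
      ∀ q a : ℕ, 1 ≤ q → 30 ∣ q → q ≤ n → a ≤ n →
      (∀ h ∈ ({0, 2, 6, 12} : Finset ℕ), Nat.Coprime q (a + h)) →
        (∀ m : ℕ, 29 * n ≤ (q * m + a + 2) ^ 2 → (q * m + a + 2) ^ 2 ≤ 30 * n →
          (Good q a s m → Val n (q * m + a + 2) ∧
            ∀ h ∈ ({0, 2, 6, 12} : Finset ℕ), (q * m + a + h).primeFactorsList.length ≤ r) ∧
          ((∀ h ∈ ({0, 2, 6, 12} : Finset ℕ), (q * m + a + h).Prime ∧ s < q * m + a + h) → Good q a s m)) ∧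
        ∀ u Y : ℕ, (n : ℝ) ^ θ ≤ Y → ∀ J : Finset ℕ, J.card ≤ K → 0 ∈ J → ∀ T : ℕ, (∀ h ∈ J, h ≤ T) →
          T * V q s ≤ x0 →
          |(Blocks q a s J T u Y : ℝ) - Y * VJ q a J s * Real.exp (-(T * V q s))| ≤
            ε * (Y * VJ q a J s * Real.exp (-(T * V q s))) := by
  classical
  obtain ⟨r0, h0⟩ := LS.blkL 4 2 K (by norm_num) 1 θ (by norm_num) hθ x0 ε hε
  refine ⟨max r0 1, le_max_right _ _, ?_⟩
  intro r hr
  have hr1 : 1 ≤ r := (le_max_right _ _).trans hr
  have hb2 : ∀ᶠ n : ℕ in atTop, (1 : ℝ) ≤ (n : ℝ) ^ (1 / (r : ℝ)) :=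
    ((tendsto_rpow_atTop (by positivity)).comp tendsto_natCast_atTop_atTop).eventually_ge_atTop _
  filter_upwards [h0 r ((le_max_left _ _).trans hr), hb2, eventually_ge_atTop 100] with n hX hX2 hn
  intro h4 s hs q a hq1 h30 hqn han hco
  have hs1 : 1 ≤ s := by
    rw [hs]
    exact Nat.le_floor (by exact_mod_cast hX2)
  refine ⟨?_, ?_⟩
  · intro m hm1 hm2
    constructor
    · intro hg
      refine ⟨Pool.Agent.R518.FS4.val_of h4 h30 (hco 2 (by decide)) hm1 hm2, ?_⟩
      intro h hh
      have hh12 : h ≤ 12 := by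
        simp only [mem_insert, mem_singleton] at hh
        omega
      have hle : q * m + a + 2 + 10 ≤ n := by
        by_contra hcon
        have h5 : n - 9 ≤ q * m + a + 2 := by omega
        have h6 : (n - 9) ^ 2 ≤ 30 * n := (Nat.pow_le_pow_left h5 2).trans hm2
        obtain ⟨N, hN⟩ : ∃ N, n = N + 9 := ⟨n - 9, by omega⟩
        subst hN
        have e9 : N + 9 - 9 = N := by omega
        rw [e9] at h6
        have h7 : 91 * N ≤ N ^ 2 := by
          rw [sq]
          exact Nat.mul_le_mul_right N (by omega)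
        omega
      have hpos : q * m + a + h ≠ 0 := by
        intro h0'
        have h7 : (q * m + a + 2) ≤ 2 := by omega
        have h8 : 29 * n ≤ 2 ^ 2 := hm1.trans (Nat.pow_le_pow_left h7 2)
        omega
      exact few hr1 hs hs1 hpos (by omega) (fun l' hl' hls => hg l' hl' hls h hh)
    · intro h l' hl' hls h' hh' hd
      obtain ⟨h1, h2⟩ := h h' hh'
      have h3 := (Nat.prime_dvd_prime_iff_eq hl' h1).1 hd
      omega
  · intro u Y hY J hJK hJ0 S hJS hS
    have hone : LS.One (LS.fm q a Hq) 1 0 := by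
      refine ⟨squarefree_one, by norm_num, ?_, ?_⟩
      · intro p hp hp1
        exact absurd (Nat.dvd_one.1 hp1) hp.one_lt.ne'
      · intro p hp hp1
        exact absurd (Nat.dvd_one.1 hp1) hp.one_lt.ne'
    have hgood : Pool.Agent.R490.LZ.Good (n ^ 2) (LS.sb 1 0 (LS.fm q a Hq)) := by
      apply LS.sb_good hone hq1 (co_of hco)
      · intro p hp hpq
        have hp30 : ¬ p ∣ 30 := fun h => hpq (h.trans h30)
        rw [nu_big hp hp30]
        by_contra hcon
        have h1 : p ≤ 4 := by omega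
        have := hp.two_le
        interval_cases p
        · exact hp30 (by norm_num)
        · exact hp30 (by norm_num)
        · exact absurd hp (by norm_num)
      · nlinarith
      · intro h hh
        have h1 : (a : ℤ) ≤ n := by exact_mod_cast han
        have h2 : (0 : ℤ) ≤ a := Nat.cast_nonneg _
        have h3 : (100 : ℤ) ≤ n := by exact_mod_cast hn
        have h5 : (n : ℤ) + 12 ≤ ((n ^ 2 : ℕ) : ℤ) := by
          push_cast
          nlinarith
        unfold Hq at hh
        simp only [mem_insert, mem_singleton] at hh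
        rw [abs_le]
        push_cast
        push_cast at h5
        rcases hh with rfl | rfl | rfl | rfl <;> constructor <;> linarith
    have hnoT : Pool.Agent.R490.LZ.NoT (LS.sb 1 0 (LS.fm q a Hq)) ((n : ℝ) ^ (1 : ℝ)) := by
      apply LS.sb_noT
      intro h hh h' hh' t ht1 _ he
      have h1 : 30 ≤ q * t := (Nat.le_of_dvd (by omega) h30).trans (Nat.le_mul_of_pos_right _ (by omega))
      have h2 : (30 : ℤ) ≤ (q : ℤ) * ((1 : ℕ) : ℤ) * t := by
        push_cast
        rw [mul_one]
        exact_mod_cast h1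
      rw [← he] at h2
      unfold Hq at hh hh'
      simp only [mem_insert, mem_singleton] at hh hh'
      rcases hh with rfl | rfl | rfl | rfl <;> rcases hh' with rfl | rfl | rfl | rfl <;> norm_num at h2
    have hcard : (LS.fm q a Hq).card = 4 := by
      rw [LS.fm_card]
      decide
    rw [LS.sb_one] at hgood hnoT
    have h := hX (LS.fm q a Hq) hcard hgood hnoT s hs u Y hY J hJK hJ0 S hJS (by rw [V_eq h30 hco]; exact hS)
    rw [V_eq h30 hco, VJ_eq] at h
    have e3 : LS.exL (LS.fm q a Hq) J S s u Y = Blocks q a s J S u Y := by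
      unfold LS.exL Blocks
      rw [← good_eq]
    rw [e3] at h
    exact h

end Pool.Agent.Results.MP_40574a_nt.ExactBlocks
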