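import Mathlib
import Pool.Agent.K1H84.FS.Fin

set_option autoImplicit false

/-!
# Four squares and prime tuples: the asymptotic number for every large integer and almost all shifts from thin families

Q1 asks, for every `n > 1` with `4 ∤ n`, for a representation of `n` as a sum of four squares for which `p = x + 2 y + 5 z`
and `p - 2`, `p + 4`, `p + 10` are primes. Let `n` be large, `4 ∤ n`, `b ≥ 12`. For a vector of shifts `a 1, ..., a k` up
to `⌊√n⌋ / b` we count the `p` with `√(29 n) < p`, `p + ⌊√n⌋ / b ≤ √(30 n)` for which all the numbers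
`p, p + a 1, ..., p + a k` are primes and values of `x + 2 y + 5 z` at representations of `n`. Their number is
`(1 + O (ε)) S (√30 - √29 - 1 / b) √n / (log √n) ^ (k + 1)`, as predicted by Hardy and Littlewood, `S` being the singular
series, for almost all admissible vectors of shifts (with a proportion at most `1 / (log n) ^ U` of exceptions)

* from all families of integers `s i`, `i = 1, ..., k`, with a small large spectrum modulo some `M i ≥ 48 √n`;
* in particular from the explicit families `c i + u / q mod M i`, `q ≤ (log N) ^ C` prime, `u ≤ (log N) ^ (2 C)`, of only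
  `(log n) ^ O(1)` shifts, for all primes `M i` in a dyadic interval and all integers `c i`.

The exponential sum method for the thin families is that of helper51 (`MP_68a45e_nt.SmallSpectrumShifts`,
`Pool.Agent.K1H51.HL`), the representation lemma is from the starting files (`Pool.Agent.H141R2.FS.rep`): every integer
`p` prime to `30` with `29 n ≤ p ^ 2 ≤ 30 n` is a value of `x + 2 y + 5 z` at a representation of `n`.
-/

namespace Pool.Agent.Results.MP_40574a_nt.ThinShifts

open Finset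

/-- `p` is the value of `x + 2 y + 5 z` at a representation of `n` as a sum of four squares of natural numbers -/
def Val (n p : ℕ) : Prop := ∃ x y z w : ℕ, n = x ^ 2 + y ^ 2 + z ^ 2 + w ^ 2 ∧ p = x + 2 * y + 5 * z

open Classical in
/-- the large spectrum modulo `M` of the family `s j`, `j ∈ I`, at the level `η`: the frequencies `t` modulo `M` for which
the sum of `e (t (s j) / M)` over the `j ∈ I` has absolute value larger than `η |I|` -/
noncomputable def spectrum {ι : Type} (M : ℕ) (I : Finset ι) (s : ι → ℤ) (η : ℝ) : Finset ℕ :=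
  (range M).filter (fun t : ℕ => η * I.card <
    ‖∑ j ∈ I, Complex.exp (2 * Real.pi * Complex.I * (((t : ℝ) * ((s j : ℝ) / M) : ℝ) : ℂ))‖)

/-- the number of the residues `r < p` with `p ∣ r (r + a 1) ... (r + a k)` -/
def nu {k : ℕ} (a : Fin k → ℕ) (p : ℕ) : ℕ := ((range p).filter (fun r => p ∣ r ∨ ∃ i, p ∣ r + a i)).card

/-- the product over the primes `p ≤ z` of `(1 - nu p / p) / (1 - 1 / p) ^ (k + 1)` -/
noncomputable def sing {k : ℕ} (a : Fin k → ℕ) (z : ℕ) : ℝ :=
  ∏ p ∈ (Icc 1 z).filter Nat.Prime, (1 - (nu a p : ℝ) / p) / (1 - 1 / (p : ℝ)) ^ (k + 1)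

/-- for every prime `p` there is an integer `r` such that `p` divides neither `r` nor any `r + a i` -/
def Admissible {k : ℕ} (a : Fin k → ℕ) : Prop :=
  ∀ p : ℕ, p.Prime → ∃ r : ℤ, ¬ (p : ℤ) ∣ r ∧ ∀ i, ¬ (p : ℤ) ∣ r + (a i : ℤ)

open Classical in
/-- the `p` with `29 n < p ^ 2` and `(p + ⌊√n⌋ / b) ^ 2 ≤ 30 n` for which `p, p + a 1, ..., p + a k` are primes and values
of `x + 2 y + 5 z` at representations of `n` -/
noncomputable def places {k : ℕ} (b n : ℕ) (a : Fin k → ℕ) : Finset ℕ :=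
  (Icc 1 (30 * n)).filter (fun p => 29 * n < p ^ 2 ∧ (p + Nat.sqrt n / b) ^ 2 ≤ 30 * n ∧
    (p.Prime ∧ Val n p) ∧ ∀ i, (p + a i).Prime ∧ Val n (p + a i))

/-- the main term without the singular series: `(√30 - √29 - 1 / b) √n / (log √n) ^ (k + 1)` -/
noncomputable def mainTerm (k b n : ℕ) : ℝ :=
  (Real.sqrt 30 - Real.sqrt 29 - 1 / b) * (Real.sqrt n / Real.log (Real.sqrt n) ^ (k + 1))

/-- the formula of Hardy and Littlewood: the singular series converges, and, if the shifts are admissible, its value `S`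
is positive and the number of the places is `S` times the main term, up to the factor `1 ± ε` -/
def Holds {k : ℕ} (ε : ℝ) (b n : ℕ) (a : Fin k → ℕ) : Prop :=
  ∃ S : ℝ, Filter.Tendsto (fun z => sing a z) Filter.atTop (nhds S) ∧
    (Admissible a → 0 < S ∧ |((places b n a).card : ℝ) - S * mainTerm k b n| ≤ ε * (S * mainTerm k b n))

open Classical in
/-- the number of the vectors `q`, `q i ∈ I i`, with shifts `s i (q i)` between `0` and `⌊√n⌋ / b` for which the formula
does not hold -/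
noncomputable def exceptions {k : ℕ} {ι : Fin k → Type} (ε : ℝ) (b n : ℕ) (I : ∀ i, Finset (ι i)) (s : ∀ i, ι i → ℤ) : ℝ :=
  (((Fintype.piFinset I).filter (fun q => (∀ i, 0 ≤ s i (q i) ∧ s i (q i) ≤ (Nat.sqrt n / b : ℕ)) ∧
    ¬ Holds ε b n (fun i => (s i (q i)).toNat))).card : ℝ)

/-- the pairs `(q, u)` with a prime `q ≤ P` and `1 ≤ u ≤ R` -/
def pairs (P R : ℕ) : Finset (ℕ × ℕ) := ((Icc 1 P).filter Nat.Prime) ×ˢ (Icc 1 R)

/-- the least non-negative residue of `c + u / q` modulo `M`, for the pair `j = (q, u)` -/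
def frac (M : ℕ) (c : ℤ) (j : ℕ × ℕ) : ℤ := (c + j.2 * (((j.1 : ZMod M)⁻¹.val : ℕ) : ℤ)) % M

theorem result (k b U : ℕ) (hk : 1 ≤ k) (hb : 12 ≤ b) (ε : ℝ) (hε : 0 < ε) :
    (∃ U1 : ℕ, ∀ K : ℕ, ∃ n₀ : ℕ, ∀ n : ℕ, n₀ ≤ n → ¬ 4 ∣ n →
      ∀ (ι : Fin k → Type) (I : ∀ i, Finset (ι i)) (s : ∀ i, ι i → ℤ) (M : Fin k → ℕ),
      (∀ i, 48 * Real.sqrt n ≤ M i) →
      (∀ i, ((spectrum (M i) (I i) (s i) (1 / Real.log n ^ U1)).card : ℝ) * Real.sqrt n ≤ Real.log n ^ K * M i) →
      exceptions ε b n I s ≤ (∏ i, ((I i).card : ℝ)) / Real.log n ^ U) ∧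
    (∃ C n₀ : ℕ, ∀ n : ℕ, n₀ ≤ n → ¬ 4 ∣ n → ∀ N : ℕ, N = Nat.sqrt n / b →
      ∀ I : Finset (ℕ × ℕ), I = pairs ⌊Real.log N ^ C⌋₊ ⌊Real.log N ^ (2 * C)⌋₊ →
      ∀ M : Fin k → ℕ, (∀ i, (M i).Prime ∧ (48 * b + 8) * N ≤ M i ∧ M i ≤ (96 * b + 16) * N) → ∀ c : Fin k → ℤ,
      (∀ i, (I.card : ℝ) / (100 * (8 * b + 1)) ≤
        ((I.filter (fun j => 1 ≤ frac (M i) (c i) j ∧ frac (M i) (c i) j ≤ N)).card : ℝ)) ∧
      exceptions ε b n (fun _ => I) (fun i => frac (M i) (c i)) ≤ (I.card : ℝ) ^ k / Real.log n ^ U) :=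
  ⟨Pool.Agent.K1H84.FS.gen k b U hk hb ε hε, Pool.Agent.K1H84.FS.expl k b U hk hb ε hε⟩

end Pool.Agent.Results.MP_40574a_nt.ThinShifts
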